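import Pool.Agent.H1.KahB

set_option autoImplicit false

namespace Pool.Agent.Results.MP_535799_an.Yes
open Pool.Agent.H1.Kah

theorem result : ∃ Q : Set ℤ, PropP Q ∧ ¬ Sidon Q :=
  ⟨Set.range q, propP _ summ, not_sidon⟩

end Pool.Agent.Results.MP_535799_an.Yes
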